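import Mathlib
import Pool.Agent.H62.Decomp.Multi

set_option autoImplicit false

namespace Pool.Agent.Results.MP_33a63d_co.CompleteMultipartite

open SimpleGraph Pool.Agent.H62.Decomp

/-- A complete `k`-partite graph, `k ≥ 3`, with nonempty parts of which at most one is a single
vertex does not satisfy the decomposition formula. -/
theorem result (k : ℕ) (hk : 3 ≤ k) (m : Fin k → ℕ) (hm : ∀ i, 1 ≤ m i)
    (hm2 : ∀ i j, i ≠ j → 2 ≤ m i ∨ 2 ≤ m j) :
    ¬ SatisfiesFormula (completeMultipartiteGraph (fun i => Fin (m i))) :=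
  multipartite hk m hm hm2

end Pool.Agent.Results.MP_33a63d_co.CompleteMultipartite
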