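import Mathlib
import Pool.Agent.H62.Decomp.Main

set_option autoImplicit false

namespace Pool.Agent.Results.MP_33a63d_co.NecessaryLabelling

open SimpleGraph Pool.Agent.H62.Decomp

universe u

/-- A necessary condition for the decomposition formula. Let `G` be a finite graph of chromatic
number `k ≥ 3` satisfying the decomposition formula. Then its vertices can be labelled by
`0, …, k - 2` so that the vertices labelled `0` induce a graph of maximum degree at most one, each
of the labels `1, …, k - 3` is an independent set, and the graph induced by the vertices labelled
`k - 2` contains no member of the decomposition class of `G`. -/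
theorem result (V : Type u) [Fintype V] (G : SimpleGraph V)
    (hk : 3 ≤ G.chromaticNumber.toNat) (hG : SatisfiesFormula G) :
    ∃ s : V → ℕ, (∀ x, s x ≤ G.chromaticNumber.toNat - 2) ∧
      (∀ x y z, s x = 0 → s y = 0 → s z = 0 → G.Adj x y → G.Adj x z → y = z) ∧
      (∀ x y, 1 ≤ s x → s x ≤ G.chromaticNumber.toNat - 3 → s x = s y → ¬ G.Adj x y) ∧
      ¬ ContainsMember G (G.induce {x | s x = G.chromaticNumber.toNat - 2}) :=
  necessary G hk hG

end Pool.Agent.Results.MP_33a63d_co.NecessaryLabelling
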