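import Mathlib
import Pool.Agent.H67.SG.PartA
import Pool.Agent.H67.SG.GenC
import Pool.Agent.H57.SD.PartD
import Pool.Agent.H67.AS.MainA
import Pool.Agent.H67.AS.SOne
import Pool.Agent.H67.AF.MainF

namespace Pool.Agent.Results.MP_33a63d_co.Surplus

open SimpleGraph Pool.Agent.H62.Decomp H67.SG H57.SD H67.AS H67.AF

/-- The decomposition formula for a finite graph `G` with `χ(G) = k ≥ 3` and chromatic surplus `s = s(G)`.
(1) For every `ε > 0`, all large `n` and all trees `T` with `n` vertices in which, for every set `S` of at most `s` vertices,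
at least `ε n` vertices are neither in `S` nor adjacent to a vertex of `S`, `r(G,T) = (k-1)(n-1) + s` and
`r(B(G),T) = n - 1 + s`.
(2) If the vertices can be divided into `k - 1` classes, one of which induces a graph of maximum degree at most one
while the others are independent, then the same holds for all large `n` and all trees `T` with `n` vertices, and `G` satisfies the
formula.
(3) There is a `K` such that the same holds for all large `n` and all trees `T` with `n` vertices and maximum degree at most
`n - K` if and only if two classes of some proper `k`-colouring of `G` induce a forest, that is, some member of `B(G)` is a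
forest; if `s = 1` there is such a member.
(4) If `s = 1` and `B(G)` has a member inside a disjoint union of paths with three vertices, then `G` satisfies the formula iff
the vertices can be divided into `k - 1` classes, two of which induce maximum degree at most one while the others are
independent. -/
theorem result (V : Type) [Fintype V] (G : SimpleGraph V) (k : ℕ) (hk3 : 3 ≤ k)
    (hk : G.chromaticNumber = k) :
    (∀ ε : ℝ, 0 < ε → ∃ n₀ : ℕ, ∀ n : ℕ, n₀ ≤ n → ∀ T : SimpleGraph (Fin n), T.IsTree →
      (∀ S : Finset (Fin n), S.card ≤ surplus G → ε * n ≤ ({x | x ∉ S ∧ ∀ y ∈ S, ¬ T.Adj y x}.ncard : ℝ)) →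
      ramsey G T = (k - 1) * (n - 1) + surplus G ∧ classRamsey G T = n - 1 + surplus G) ∧
    (MJ G (k - 1) 1 → SatisfiesFormula G ∧ ∃ n₀ : ℕ, ∀ n : ℕ, n₀ ≤ n → ∀ T : SimpleGraph (Fin n),
      T.IsTree → ramsey G T = (k - 1) * (n - 1) + surplus G ∧ classRamsey G T = n - 1 + surplus G) ∧
    (((∃ K n₀ : ℕ, ∀ n : ℕ, n₀ ≤ n → ∀ T : SimpleGraph (Fin n), T.IsTree → (∀ x, deg T x + K ≤ n) →
        ramsey G T = (k - 1) * (n - 1) + surplus G ∧ classRamsey G T = n - 1 + surplus G) ↔
      ∃ (c : G.Coloring (Fin k)) (i j : Fin k), i ≠ j ∧ (G.induce {x | c x = i ∨ c x = j}).IsAcyclic) ∧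
     (surplus G = 1 →
      ∃ (c : G.Coloring (Fin k)) (i j : Fin k), i ≠ j ∧ (G.induce {x | c x = i ∨ c x = j}).IsAcyclic)) ∧
    (surplus G = 1 → ∀ t : ℕ, ContainsMember G (paths3 t) → (SatisfiesFormula G ↔ MJ G (k - 1) 2)) := by
  refine ⟨fun ε hε => undominated_real G k (by omega) hk ε hε,
    fun h => ⟨formula_of_matching G k (by omega) hk h, partD G k (by omega) hk h⟩,
    ⟨forest_iff G k (by omega) hk, fun hs => ?_⟩, fun hs => ?_⟩
  · obtain ⟨v, hv⟩ := exists_of_surplus_one G k (by omega) hk hs
    refine (forest_iff G k (by omega) hk).1 ?_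
    obtain ⟨K, n₀, h⟩ := partA G k hk3 hk v hv
    refine ⟨K, max n₀ 1, fun n hn T hT hK => ?_⟩
    obtain ⟨h1, h2⟩ := h n (le_trans (le_max_left _ _) hn) T hT hK
    have hn1 : 1 ≤ n := le_trans (le_max_right _ _) hn
    rw [hs]
    exact ⟨h1, by omega⟩
  · obtain ⟨v, hv⟩ := exists_of_surplus_one G k (by omega) hk hs
    exact fun t ht => gen_iff G k hk3 hk v hv t ht

end Pool.Agent.Results.MP_33a63d_co.Surplus
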