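import Mathlib
import Pool.Agent.H67.SW.Main

namespace Pool.Agent.Results.MP_33a63d_co.WheelsAndFans

open SimpleGraph Pool.Agent.H62.Decomp H67.SW

/-- The decomposition formula for joins of a vertex, an even cycle or a path with `m` vertices, and `p` independent
sets with at least `(p + 2) m` vertices (chromatic number `k = p + 3`): for the cycle it holds exactly for
`m ≥ 2 (k - 2) (2 k - 3)`, for the path exactly if `⌊m / (b + 2)⌋ + (k - 2) b ≤ ⌊m / 2⌋` for all `b ≥ 1` with
`(b + 1) (b + 2) ≤ m`. For `p = 0` these are the even wheels and the fans. -/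
theorem result (p m : ℕ) (M : Fin p → ℕ) (hM : ∀ j, (p + 2) * m ≤ M j) :
    (4 ≤ m → Even m →
      (SatisfiesFormula (apexJoin (cycleGraph m) M) ↔ 2 * (p + 1) * (2 * p + 3) ≤ m)) ∧
    (2 ≤ m → (SatisfiesFormula (apexJoin (pathGraph m) M) ↔
      ∀ b, 1 ≤ b → (b + 1) * (b + 2) ≤ m → m / (b + 2) + (p + 1) * b ≤ m / 2)) :=
  ⟨fun h4 he => cycle_iff p m h4 he M hM, fun h2 => path_iff p m h2 M hM⟩

end Pool.Agent.Results.MP_33a63d_co.WheelsAndFans
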